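import Pool.Agent.H802.TVF.Tree
import Pool.Agent.R632.VRC.Two2

/-! Let a finite tree of groups be given in which all vertex groups are virtually fibered, all edge
groups are infinite and virtually cyclic, and all images of edge groups are virtual retracts of the
vertex groups. Then the fundamental group of the tree of groups is virtually fibered. -/

set_option linter.unusedSectionVars false
set_option linter.dupNamespace false

namespace Pool.Agent.Results.MP_64528c_al.TreesFiber

open Pool.Agent.H802.TVF Pool.Agent.R632.VRC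

universe u

/-- A group is fibered if it has a surjective homomorphism to the integers with finitely generated
kernel. -/
def IsFibered (G : Type u) [Group G] : Prop :=
  ∃ φ : G →* Multiplicative ℤ, Function.Surjective φ ∧ φ.ker.FG

/-- A group is virtually fibered if some subgroup of finite index is fibered. -/
def IsVirtuallyFibered (G : Type u) [Group G] : Prop :=
  ∃ K : Subgroup G, K.FiniteIndex ∧ IsFibered K

/-- `H` is a virtual retract of `G`: some subgroup `K` of finite index in `G` contains `H`, and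
there is a homomorphism from `K` to `H` whose restriction to `H` is the identity. -/
def IsVirtualRetract {G : Type u} [Group G] (H : Subgroup G) : Prop :=
  ∃ K : Subgroup G, K.FiniteIndex ∧ ∃ hHK : H ≤ K, ∃ r : K →* H,
    ∀ h : H, r ⟨(h : G), hHK h.2⟩ = h

/-- A group is virtually cyclic if it has a cyclic subgroup of finite index. -/
def IsVirtuallyCyclic (G : Type u) [Group G] : Prop :=
  ∃ c : G, (Subgroup.zpowers c).FiniteIndex

section trees

variable {V : Type} {T : SimpleGraph V} {p q : T.edgeSet → V} {G : V → Type u} [∀ v, Group (G v)]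
  {E : T.edgeSet → Type u} [∀ e, Group (E e)]
  (α : ∀ e, E e →* G (p e)) (β : ∀ e, E e →* G (q e))

/-- The normal closure, in the free product of the vertex groups, of the elements
`α e h * (β e h)⁻¹`, where `e` is an edge with end points `p e` and `q e`, and `h` is an element of
the edge group of `e`. -/
def relators : Subgroup (Monoid.CoprodI G) :=
  Subgroup.normalClosure (Set.range fun x : Σ e, E e =>
    (Monoid.CoprodI.of (α x.1 x.2) : Monoid.CoprodI G) * (Monoid.CoprodI.of (β x.1 x.2))⁻¹)

instance : (relators α β).Normal := Subgroup.normalClosure_normal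

/-- The fundamental group of the tree of groups: the free product of the vertex groups with
`α e h` and `β e h` identified for every edge `e` and every `h` in its edge group. -/
abbrev FundamentalGroup : Type u := Monoid.CoprodI G ⧸ relators α β

end trees

lemma surj_of_ne_one {K : Type u} [Group K] (φ : K →* Multiplicative ℤ) (hφ : φ ≠ 1) :
    ∃ φ' : K →* Multiplicative ℤ, Function.Surjective φ' ∧ φ'.ker = φ.ker := by
  let W : AddSubgroup ℤ :=
    { carrier := Set.range fun x => (φ x).toAdd
      add_mem' := by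
        rintro _ _ ⟨a, rfl⟩ ⟨b, rfl⟩
        exact ⟨a * b, by show (φ (a * b)).toAdd = _; rw [map_mul, toAdd_mul]⟩
      zero_mem' := ⟨1, by show (φ 1).toAdd = _; rw [map_one, toAdd_one]⟩
      neg_mem' := by
        rintro _ ⟨a, rfl⟩
        exact ⟨a⁻¹, by show (φ a⁻¹).toAdd = _; rw [map_inv, toAdd_inv]⟩ }
  obtain ⟨d, hd⟩ := Int.subgroup_cyclic W
  have hdW : d ∈ W := by rw [hd]; exact AddSubgroup.subset_closure rfl
  have hdvd : ∀ x, d ∣ (φ x).toAdd := by
    intro x
    have h1 : (φ x).toAdd ∈ W := ⟨x, rfl⟩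
    rw [hd, AddSubgroup.mem_closure_singleton] at h1
    obtain ⟨n, hn⟩ := h1
    exact ⟨n, by rw [← hn, zsmul_eq_mul, mul_comm]; rfl⟩
  have hd0 : d ≠ 0 := by
    rintro rfl
    apply hφ
    ext x
    exact zero_dvd_iff.mp (hdvd x)
  obtain ⟨y, hy⟩ := hdW
  have hy' : (φ y).toAdd = d := hy
  let φ' : K →* Multiplicative ℤ := MonoidHom.mk' (fun x => Multiplicative.ofAdd ((φ x).toAdd / d))
    (fun a b => by
      show Multiplicative.ofAdd ((φ (a * b)).toAdd / d) = _
      rw [map_mul, toAdd_mul, Int.add_ediv_of_dvd_left (hdvd a)]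
      rfl)
  have hφ' : ∀ x, φ' x = Multiplicative.ofAdd ((φ x).toAdd / d) := fun _ => rfl
  refine ⟨φ', ?_, ?_⟩
  · intro n
    refine ⟨y ^ (Multiplicative.toAdd n), ?_⟩
    rw [map_zpow, hφ', hy', Int.ediv_self hd0]
    show Multiplicative.ofAdd _ = _
    rw [zsmul_eq_mul, toAdd_ofAdd, mul_one]
    rfl
  · ext x
    rw [MonoidHom.mem_ker, MonoidHom.mem_ker, hφ']
    obtain ⟨k, hk⟩ := hdvd x
    constructor
    · intro h
      have h1 : (φ x).toAdd / d = 0 := h
      rw [hk, Int.mul_ediv_cancel_left _ hd0] at h1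
      have h2 : (φ x).toAdd = 0 := by rw [hk, h1, mul_zero]
      exact h2
    · intro h
      rw [h, toAdd_one, Int.zero_ediv]
      rfl

lemma vf_of {P : Type u} [Group P] (h : IsVirtuallyFibered P) : VF P := by
  obtain ⟨L, hL, φ, hφ, hfg⟩ := h
  obtain ⟨θ, hθ, h0, hk⟩ := of_fibered L φ (by
    rintro rfl
    obtain ⟨x, hx⟩ := hφ (Multiplicative.ofAdd 1)
    have h1 : (Multiplicative.ofAdd (1 : ℤ)).toAdd = (1 : Multiplicative ℤ).toAdd := by
      rw [← hx]
      rfl
    rw [toAdd_ofAdd, toAdd_one] at h1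
    exact one_ne_zero h1) hfg
  exact ⟨L, θ, hθ, hL, h0, hk⟩

lemma of_vf {P : Type u} [Group P] (h : VF P) : IsVirtuallyFibered P := by
  obtain ⟨L, θ, hθ, hL, h0, hk⟩ := h
  obtain ⟨φ, hφ, hfg⟩ := to_fibered L θ hθ h0 hk
  obtain ⟨φ', hφ', hker⟩ := surj_of_ne_one φ hφ
  exact ⟨L, hL, φ', hφ', by rw [hker]; exact hfg⟩

lemma vr_of {H P : Type u} [Group H] [Group P] (ψ : H →* P) (hψ : Function.Injective ψ)
    (h : IsVirtualRetract ψ.range) : VR ψ := by
  obtain ⟨K, hK, hψK, r, hr⟩ := h
  let e := MonoidHom.ofInjective hψ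
  refine ⟨K, hK, fun h => hψK ⟨h, rfl⟩, e.symm.toMonoidHom.comp r, fun h => ?_⟩
  show e.symm (r ⟨ψ h, _⟩) = h
  rw [MulEquiv.symm_apply_eq]
  exact hr ⟨ψ h, h, rfl⟩

lemma ivc_of {H : Type u} [Group H] (h : IsVirtuallyCyclic H) (hinf : Infinite H) : IVC H := by
  obtain ⟨c, hc⟩ := h
  refine ⟨c, fun n hn => ?_, hc⟩
  by_contra h0
  have hfo : IsOfFinOrder c := isOfFinOrder_iff_zpow_eq_one.mpr ⟨n, h0, hn⟩
  have h2 : Finite (Subgroup.zpowers c) := (finite_zpowers.mpr hfo).to_subtype
  have h3 : Finite (H ⧸ Subgroup.zpowers c) := Subgroup.finite_quotient_of_finiteIndex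
  have h4 : Finite H := by
    have : Finite ((H ⧸ Subgroup.zpowers c) × Subgroup.zpowers c) := inferInstance
    exact Finite.of_equiv _
      (Subgroup.groupEquivQuotientProdSubgroup (s := Subgroup.zpowers c)).symm
  exact not_finite H

/-- Finite trees of virtually fibered groups with infinite virtually cyclic edge groups whose
images are virtual retracts of the vertex groups have virtually fibered fundamental groups. -/
theorem result {V : Type} [Finite V] (T : SimpleGraph V) (hT : T.IsTree) (p q : T.edgeSet → V)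
    (hpq : ∀ e : T.edgeSet, (e : Sym2 V) = s(p e, q e))
    (G : V → Type u) [∀ v, Group (G v)] (E : T.edgeSet → Type u) [∀ e, Group (E e)]
    (α : ∀ e, E e →* G (p e)) (β : ∀ e, E e →* G (q e))
    (hα : ∀ e, Function.Injective (α e)) (hβ : ∀ e, Function.Injective (β e))
    (hE : ∀ e, IsVirtuallyCyclic (E e)) (hEinf : ∀ e, Infinite (E e))
    (hG : ∀ v, IsVirtuallyFibered (G v))
    (hαr : ∀ e, IsVirtualRetract (α e).range) (hβr : ∀ e, IsVirtualRetract (β e).range) :
    IsVirtuallyFibered (FundamentalGroup α β) := by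
  classical
  have hft : Fintype V := Fintype.ofFinite V
  have htree : TreeOn p q := by
    refine ⟨hT.connected.nonempty, fun v w => ?_, ?_⟩
    · obtain ⟨W⟩ := hT.connected.preconnected v w
      induction W with
      | nil => exact Relation.EqvGen.refl _
      | @cons x y z hxy W ih =>
        refine Relation.EqvGen.trans _ _ _ ?_ ih
        have h1 := hpq ⟨s(x, y), hxy⟩
        have h2 : s(x, y) = s(p ⟨s(x, y), hxy⟩, q ⟨s(x, y), hxy⟩) := h1
        rw [Sym2.eq_iff] at h2
        rcases h2 with ⟨h2, h3⟩ | ⟨h2, h3⟩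
        · exact Relation.EqvGen.rel _ _ ⟨_, h2.symm, h3.symm⟩
        · exact (Relation.EqvGen.rel _ _ ⟨_, h3.symm, h2.symm⟩).symm
    · rw [← hT.card_edgeFinset, SimpleGraph.edgeFinset_card]
  have h1 : TreeAmalg α β (fun v => (QuotientGroup.mk' (relators α β)).comp
      (Monoid.CoprodI.of : G v →* Monoid.CoprodI G)) := tree_pres α β
  exact of_vf (tree_good _ p q htree rfl G E α β _ _ h1 (fun e => ivc_of (hE e) (hEinf e))
    (fun e => vr_of _ (hα e) (hαr e)) (fun e => vr_of _ (hβ e) (hβr e))
    (fun v => vf_of (hG v))).1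

end Pool.Agent.Results.MP_64528c_al.TreesFiber
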